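import Mathlib

set_option autoImplicit false

namespace Pool.Agent.V1198.Cone

open Filter Topology Set ZeroAtInfty

/-- `P` is a closed cone in `X`, so that `(X, P)` is an ordered Banach space (if `X` is complete);
the order is `x ≤ y` iff `y - x ∈ P`. -/
structure IsClosedCone {X : Type*} [NormedAddCommGroup X] [NormedSpace ℝ X] (P : Set X) : Prop where
  closed : IsClosed P
  add_mem : ∀ x ∈ P, ∀ y ∈ P, x + y ∈ P
  smul_mem : ∀ c : ℝ, 0 ≤ c → ∀ x ∈ P, c • x ∈ P
  proper : ∀ x ∈ P, -x ∈ P → x = 0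

/-- The cone is normal: `0 ≤ x ≤ y` implies `‖x‖ ≤ C ‖y‖`. -/
def IsNormal {X : Type*} [NormedAddCommGroup X] (P : Set X) : Prop :=
  ∃ C : ℝ, ∀ x y : X, x ∈ P → y - x ∈ P → ‖x‖ ≤ C * ‖y‖

/-- The net `x` is increasing. -/
def Increasing {X : Type*} [NormedAddCommGroup X] {ι : Type*} [Preorder ι] (P : Set X)
    (x : ι → X) : Prop := ∀ i j, i ≤ j → x j - x i ∈ P

/-- `u` is an upper bound of the net `x`. -/
def IsUpper {X : Type*} [NormedAddCommGroup X] {ι : Type*} (P : Set X) (x : ι → X) (u : X) : Prop :=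
  ∀ i, u - x i ∈ P

/-- `u` is a supremum (least upper bound) of the net `x`. -/
def IsSupr {X : Type*} [NormedAddCommGroup X] {ι : Type*} (P : Set X) (x : ι → X) (u : X) : Prop :=
  IsUpper P x u ∧ ∀ v, IsUpper P x v → v - u ∈ P

/-- `u` is a minimal upper bound of the net `x`. -/
def IsMinUpper {X : Type*} [NormedAddCommGroup X] {ι : Type*} (P : Set X) (x : ι → X) (u : X) :
    Prop :=
  IsUpper P x u ∧ ∀ v, IsUpper P x v → u - v ∈ P → v = u

/-- The space `c₀ × ℝ³`. -/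
abbrev Y := C₀(ℕ, ℝ) × (ℝ × ℝ × ℝ)

/-- The cone. -/
def P : Set Y := {x | ∀ n, |x.2.1| ≤ 2 * x.1 n + x.2.2.2 ∧ |x.2.2.1| ≤ x.1 n + x.2.2.2}

theorem tendsto_coord (a : C₀(ℕ, ℝ)) : Tendsto (fun n => a n) atTop (𝓝 0) := by
  have h := a.zero_at_infty'
  rw [Filter.cocompact_eq_cofinite, Nat.cofinite_eq_atTop] at h
  exact h

theorem norm_coord_le (a : C₀(ℕ, ℝ)) (n : ℕ) : |a n| ≤ ‖a‖ := by
  have := a.toBCF.norm_coe_le_norm n
  rwa [ZeroAtInftyContinuousMap.norm_toBCF_eq_norm] at this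

theorem norm_le_of (a : C₀(ℕ, ℝ)) {C : ℝ} (hC : 0 ≤ C) (h : ∀ n, |a n| ≤ C) : ‖a‖ ≤ C := by
  rw [← ZeroAtInftyContinuousMap.norm_toBCF_eq_norm, BoundedContinuousFunction.norm_le hC]
  exact h

theorem continuous_coord (n : ℕ) : Continuous fun a : C₀(ℕ, ℝ) => a n := by
  refine LipschitzWith.continuous (K := 1) (LipschitzWith.of_dist_le_mul fun a b => ?_)
  rw [NNReal.coe_one, one_mul, dist_eq_norm, dist_eq_norm, Real.norm_eq_abs]
  exact norm_coord_le (a - b) n

/-- The limit of the conditions. -/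
theorem P_lim {x : Y} (hx : x ∈ P) : |x.2.1| ≤ x.2.2.2 ∧ |x.2.2.1| ≤ x.2.2.2 := by
  have h := tendsto_coord x.1
  constructor
  · have h1 : Tendsto (fun n => 2 * x.1 n + x.2.2.2) atTop (𝓝 (2 * 0 + x.2.2.2)) :=
      (h.const_mul 2).add_const _
    rw [mul_zero, zero_add] at h1
    exact ge_of_tendsto' h1 fun n => (hx n).1
  · have h1 : Tendsto (fun n => x.1 n + x.2.2.2) atTop (𝓝 (0 + x.2.2.2)) := h.add_const _
    rw [zero_add] at h1
    exact ge_of_tendsto' h1 fun n => (hx n).2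

theorem isClosedCone_P : IsClosedCone P where
  closed := by
    have : P = ⋂ n, {x : Y | |x.2.1| ≤ 2 * x.1 n + x.2.2.2 ∧ |x.2.2.1| ≤ x.1 n + x.2.2.2} := by
      ext x; simp [P]
    rw [this]
    refine isClosed_iInter fun n => ?_
    have h1 : Continuous fun x : Y => x.1 n := (continuous_coord n).comp continuous_fst
    have h2 : Continuous fun x : Y => x.2.2.2 := by fun_prop
    have c1 : Continuous fun x : Y => |x.2.1| := by fun_prop
    have c2 : Continuous fun x : Y => 2 * x.1 n + x.2.2.2 := (h1.const_mul 2).add h2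
    have c3 : Continuous fun x : Y => |x.2.2.1| := by fun_prop
    have c4 : Continuous fun x : Y => x.1 n + x.2.2.2 := h1.add h2
    exact (isClosed_le c1 c2).inter (isClosed_le c3 c4)
  add_mem := by
    intro x hx y hy n
    obtain ⟨h1, h2⟩ := hx n
    obtain ⟨h3, h4⟩ := hy n
    constructor
    · change |x.2.1 + y.2.1| ≤ 2 * (x.1 n + y.1 n) + (x.2.2.2 + y.2.2.2)
      have := abs_add_le x.2.1 y.2.1
      linarith
    · change |x.2.2.1 + y.2.2.1| ≤ (x.1 n + y.1 n) + (x.2.2.2 + y.2.2.2)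
      have := abs_add_le x.2.2.1 y.2.2.1
      linarith
  smul_mem := by
    intro c hc x hx n
    obtain ⟨h1, h2⟩ := hx n
    constructor
    · change |c * x.2.1| ≤ 2 * (c * x.1 n) + c * x.2.2.2
      rw [abs_mul, abs_of_nonneg hc]
      nlinarith
    · change |c * x.2.2.1| ≤ c * x.1 n + c * x.2.2.2
      rw [abs_mul, abs_of_nonneg hc]
      nlinarith
  proper := by
    intro x hx hx'
    have h1 := P_lim hx
    have h2 := P_lim hx'
    change |-x.2.1| ≤ -x.2.2.2 ∧ |-x.2.2.1| ≤ -x.2.2.2 at h2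
    rw [abs_neg, abs_neg] at h2
    have e1 : x.2.2.2 = 0 := by
      have := abs_nonneg x.2.1
      linarith [h1.1, h2.1]
    have e2 : x.2.1 = 0 := abs_eq_zero.mp (le_antisymm (by linarith [h1.1]) (abs_nonneg _))
    have e3 : x.2.2.1 = 0 := abs_eq_zero.mp (le_antisymm (by linarith [h1.2]) (abs_nonneg _))
    have e4 : x.1 = 0 := by
      ext n
      have h3 := (hx n).1
      have h4 := (hx' n).1
      change |-x.2.1| ≤ 2 * (-x.1 n) + -x.2.2.2 at h4
      rw [e1, e2] at h3 h4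
      simp at h3 h4
      change x.1 n = 0
      linarith
    exact Prod.ext e4 (Prod.ext e2 (Prod.ext e3 e1))

theorem isNormal_P : IsNormal P := by
  refine ⟨3, fun x y hx hxy => ?_⟩
  have h1 := P_lim hx
  have h2 := P_lim hxy
  change |y.2.1 - x.2.1| ≤ y.2.2.2 - x.2.2.2 ∧ |y.2.2.1 - x.2.2.1| ≤ y.2.2.2 - x.2.2.2 at h2
  have hy1 : ‖y.1‖ ≤ ‖y‖ := norm_fst_le y
  have hy2 : |y.2.2.2| ≤ ‖y‖ := by
    have a1 : ‖y.2‖ ≤ ‖y‖ := norm_snd_le y
    have a2 : ‖y.2.2‖ ≤ ‖y.2‖ := norm_snd_le y.2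
    have a3 : ‖y.2.2.2‖ ≤ ‖y.2.2‖ := norm_snd_le y.2.2
    exact a3.trans (a2.trans a1)
  have h3 := abs_nonneg x.2.1
  have h4 := abs_nonneg (y.2.1 - x.2.1)
  have h5 : x.2.2.2 ≤ ‖y‖ := by linarith [h1.1, h2.1, le_abs_self y.2.2.2]
  have hn := norm_nonneg y
  rw [Prod.norm_def, Prod.norm_def, Prod.norm_def]
  simp only [Real.norm_eq_abs]
  refine max_le ?_ (max_le ?_ (max_le ?_ ?_))
  · refine norm_le_of _ (by positivity) fun n => ?_
    have h6 := (hx n).2
    have h7 := (hxy n).2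
    change |y.2.2.1 - x.2.2.1| ≤ (y.1 n - x.1 n) + (y.2.2.2 - x.2.2.2) at h7
    have h8 := norm_coord_le y.1 n
    have h9 := abs_nonneg x.2.2.1
    have h10 := abs_nonneg (y.2.2.1 - x.2.2.1)
    have h11 := abs_le.mp h8
    have h12 := abs_le.mp hy2
    rw [abs_le]
    constructor <;> linarith [h1.1]
  · linarith [h1.1]
  · linarith [h1.2]
  · rw [abs_of_nonneg (by linarith [h1.1])]
    linarith

/-- An eventually vanishing sequence as an element of `c₀`. -/
def fs (f : ℕ → ℝ) (N : ℕ) (h : ∀ n, N ≤ n → f n = 0) : C₀(ℕ, ℝ) where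
  toFun := f
  continuous_toFun := continuous_of_discreteTopology
  zero_at_infty' := by
    rw [Filter.cocompact_eq_cofinite, Nat.cofinite_eq_atTop]
    refine tendsto_const_nhds.congr' ?_
    filter_upwards [eventually_ge_atTop N] with n hn
    exact (h n hn).symm

theorem fs_apply (f : ℕ → ℝ) (N : ℕ) (h : ∀ n, N ≤ n → f n = 0) (n : ℕ) : fs f N h n = f n := rfl

/-- The sequence `1, …, 1, 0, 0, …` with `k` ones. -/
noncomputable def ones (k : ℕ) : C₀(ℕ, ℝ) :=
  fs (fun n => if n < k then 1 else 0) k fun n hn => if_neg (not_lt.mpr hn)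

theorem ones_apply (k n : ℕ) : ones k n = if n < k then 1 else 0 := rfl

/-- The increasing sequence. -/
noncomputable def xs (k : ℕ) : Y := (ones k, 0, 0, 0)

theorem increasing_xs : Increasing P xs := by
  intro i j hij n
  have h : ones i n ≤ ones j n := by
    rw [ones_apply, ones_apply]
    split_ifs with h1 h2
    · exact le_rfl
    · omega
    · exact zero_le_one
    · exact le_rfl
  constructor
  · change |(0 : ℝ) - 0| ≤ 2 * (ones j n - ones i n) + (0 - 0)
    rw [sub_zero, abs_zero, add_zero]; linarith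
  · change |(0 : ℝ) - 0| ≤ (ones j n - ones i n) + (0 - 0)
    rw [sub_zero, abs_zero, add_zero]; linarith

/-- Two upper bounds. -/
noncomputable def ub (σ : ℝ) : Y := (0, 0, σ, 2)

theorem isUpper_ub {σ : ℝ} (hσ : |σ| = 1) : IsUpper P xs (ub σ) := by
  intro k n
  have h : ones k n ≤ 1 := by
    rw [ones_apply]; split_ifs <;> norm_num
  constructor
  · change |(0 : ℝ) - 0| ≤ 2 * (0 - ones k n) + (2 - 0)
    rw [sub_zero, abs_zero]; linarith
  · change |σ - 0| ≤ (0 - ones k n) + (2 - 0)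
    rw [sub_zero, hσ]; linarith

end Pool.Agent.V1198.Cone
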